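import Pool.Agent.W423.NT.Defs
import Pool.Agent.W250.NX.RelT

set_option autoImplicit false

/-! NT-RELT: the relation for tuples. -/

namespace Pool.Agent.W481.NT

open MvPolynomial Pool.Agent.H628R4.TZ Pool.Agent.W425.SM
open Pool.Agent.H628R4.TP hiding Sh
open Pool.Agent.W525.SM (Sh)
open Pool.Agent.W423.MG
open Pool.Agent.W423.NC
open Pool.Agent.W423.NX
open Pool.Agent.W423.NT
open Pool.Agent.W67.NC (eval_bts)
open Pool.Agent.W975.NC (rn_X rn_C rn_dm elW_n prod_neg)
open Pool.Agent.W250.NX (vx_one kill1 kill0)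

theorem relTW : TaskRelTW := by
  classical
  intro r N P g v θ b L hg h θ0 η α
  obtain ⟨M, n, n0, c, B, q, c0, q0, hc, hc0, hrel⟩ := h
  have hc0' : ∀ t, (∀ k, gs g (c0 t) k = 0) ∧ (∀ i, Sh v (c0 t) i = 0) ∧
      0 < ∑ j, (c0 t j : ℝ) * θ j := by
    intro t
    rcases hc0 t with h | h
    · exact h
    · exact absurd h.1 id
  -- the polynomial identity
  set R0 : MvPolynomial (Fin r) ℂ :=
    ∑ t, (∏ j, if c0 t j < 0 then X j * dm M j else 1) * q0 t with hR0
  set R : MvPolynomial (Fin r) ℂ := ∑ t, (∏ i ∈ B t, el v i) *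
    ((∏ j, if c t j < 0 then X j * dm M j else 1) * q t) with hR
  have hid : bts g b * ∏ j, dm M j = R + R0 := by
    refine funext_set (fun _ => (fun m : ℕ => ((m + L : ℕ) : ℂ)) '' Set.univ)
      (fun _ => (Set.infinite_univ).image (fun a _ b _ hab => by
        have : (a + L : ℕ) = b + L := by exact_mod_cast hab
        omega)) fun x hx => ?_
    choose u hu using fun j => hx j (Set.mem_univ j)
    obtain rfl : x = fun j => ((u j + L : ℕ) : ℂ) := funext fun j => ((hu j).2).symm
    have hE : gs g (fun j => u j + L) ∈ {s : Fin (P+1) → ℕ | ∀ k, L ≤ s k} := by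
      intro k
      obtain ⟨j, hj⟩ := hg k
      unfold gs
      have h2 : (if g j = k then u j + L else 0) ≤ ∑ j, if g j = k then u j + L else 0 :=
        Finset.single_le_sum (f := fun j => if g j = k then u j + L else 0)
          (fun _ _ => Nat.zero_le _) (Finset.mem_univ j)
      rw [if_pos hj] at h2
      exact le_trans (Nat.le_add_left _ _) h2
    have h1 := hrel (fun j => u j + L) hE
    rw [map_mul, eval_bts]
    have e1 : gs g (fun j => ((u j + L : ℕ) : ℂ)) =
        fun k => ((gs g (fun j => u j + L) k : ℕ) : ℂ) := by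
      funext k
      exact gs_cast g (fun j => u j + L) k
    rw [e1]
    exact h1
  refine ⟨M, n + n0, Fin.append (fun t => Fin.cons (-(P : ℤ)) (c t)) (fun t => Fin.cons 0 (c0 t)),
    Fin.append (fun t => (B t).map (Fin.natAddEmb (P+1))) (fun _ => ∅),
    Fin.append (fun t => (if P = 0 then X 0 * dm M 0 else 1) * rn (q t))
      (fun t => X 0 * dm M 0 * rn (q0 t)), ?_, ?_⟩
  · rw [vx_one]
    intro t
    induction t using Fin.addCases with
    | left t =>
      rw [Fin.append_left, Fin.append_left]
      exact kill1 g v (c t) (B t) (hc t) _ α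
    | right t =>
      rw [Fin.append_right, Fin.append_right]
      obtain ⟨h1, h2, h3⟩ := hc0' t
      exact kill0 g v θ (c0 t) h1 h2 h3 θ0 α
  · rw [vx_one, Fin.sum_univ_add, Fin.prod_univ_succ]
    simp only [Fin.append_left, Fin.append_right, Finset.prod_map, Finset.prod_empty, one_mul,
      prod_neg]
    have e1 : X 0 * rn (bts g b) * (dm M 0 * ∏ j : Fin r, dm M j.succ) =
        X 0 * dm M 0 * rn (bts g b * ∏ j, dm M j) := by
      rw [map_mul, map_prod]
      simp only [rn_dm]
      ring
    rw [e1, hid, hR, hR0, map_add, map_sum, map_sum, mul_add, Finset.mul_sum, Finset.mul_sum]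
    congr 1
    · refine Finset.sum_congr rfl fun t _ => ?_
      have hel : ∏ i ∈ B t, elW (vh g v) (wh η) ((Fin.natAddEmb (P+1)) i) =
          rn (∏ i ∈ B t, el v i) := by
        rw [map_prod]
        refine Finset.prod_congr rfl fun i _ => ?_
        exact elW_n g v η i
      rw [hel, map_mul, map_mul]
      by_cases hP : P = 0
      · subst hP
        rw [if_neg (by simp), if_pos rfl]
        ring
      · rw [if_pos (by omega), if_neg hP]
        ring
    · refine Finset.sum_congr rfl fun t _ => ?_
      rw [if_neg (lt_irrefl _), map_mul]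
      ring

end Pool.Agent.W481.NT

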